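import Pool.Agent.Q7.GK.Stm

/-!
# Project GK (helper7), job GRK: few independent vectors, many relations
-/

set_option autoImplicit false

namespace Pool.Agent.Q139.GK

open NumberField IsDedekindDomain Finset
open Pool.Agent.Q7.GK Pool.Agent.Q7.LK
open Pool.Agent.Q7.LS (Ab)
open Pool.Agent.W289.SL (IsIwasawaLog)

lemma indep_ext {K M : Type*} [Field K] [Field M] [Algebra K M] {ι : Type*} [Fintype ι] {n : ℕ}
    (u : Fin n → ι → K) (h : LinearIndependent K u) (a : Fin n → M)
    (ha : ∀ P, ∑ i, a i * algebraMap K M (u i P) = 0) : a = 0 := by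
  classical
  have hinj : Function.Injective (Fintype.linearCombination K u) := by
    exact linearIndependent_iff_injective_fintypeLinearCombination.1 h
  obtain ⟨g, hg⟩ := LinearMap.exists_leftInverse_of_injective _ (LinearMap.ker_eq_bot.2 hinj)
  have hu : ∀ i, g (u i) = Pi.single i 1 := by
    intro i
    have h1 := LinearMap.congr_fun hg (Pi.single i 1)
    simp only [LinearMap.comp_apply, LinearMap.id_apply, Fintype.linearCombination_apply_single,
      one_smul] at h1
    exact h1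
  have hs : ∀ i j, ∑ P, u i P * g (Pi.single P 1) j = (Pi.single i 1 : Fin n → K) j := by
    intro i j
    have h1 := congrFun (LinearMap.pi_apply_eq_sum_univ g (u i)) j
    rw [hu] at h1
    rw [h1, Finset.sum_apply]
    refine Finset.sum_congr rfl fun P _ => ?_
    have h2 : (fun k => if P = k then (1 : K) else 0) = Pi.single P 1 := by
      funext k
      simp [Pi.single_apply, eq_comm]
    simp [h2]
  funext j
  have h3 : a j = ∑ i, a i * algebraMap K M ((Pi.single i 1 : Fin n → K) j) := by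
    rw [Finset.sum_eq_single j]
    · simp
    · intro i _ hij
      rw [Pi.single_eq_of_ne (Ne.symm hij)]
      simp
    · simp
  rw [h3]
  have h4 : ∀ i, a i * algebraMap K M ((Pi.single i 1 : Fin n → K) j) =
      ∑ P, algebraMap K M (g (Pi.single P 1) j) * (a i * algebraMap K M (u i P)) := by
    intro i
    rw [← hs i j, map_sum, Finset.mul_sum]
    refine Finset.sum_congr rfl fun P _ => ?_
    rw [map_mul]
    ring
  simp_rw [h4]
  rw [Finset.sum_comm]
  refine Finset.sum_eq_zero fun P _ => ?_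
  rw [← Finset.mul_sum, ha P, mul_zero]

lemma finite_above (p : ℕ) (hp : p ≠ 0) (L : Type) [Field L] [NumberField L] :
    {P : HeightOneSpectrum (𝓞 L) | (p : 𝓞 L) ∈ P.asIdeal}.Finite := by
  have h0 : Ideal.span {(p : 𝓞 L)} ≠ 0 := by
    rw [Ne, Ideal.zero_eq_bot, Ideal.span_singleton_eq_bot]
    exact_mod_cast hp
  refine (Ideal.finite_factors h0).subset fun P hP => ?_
  simp only [Set.mem_ofPred_eq] at hP ⊢
  rw [Ideal.dvd_span_singleton]
  exact hP

lemma mem_above {p : ℕ} {F L : Type} [Field F] [NumberField F] [Field L] [NumberField L] [Algebra F L]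
    {v : HeightOneSpectrum (𝓞 F)} (hv : Dp p v) {P : HeightOneSpectrum (𝓞 L)} (h : Ab v P) :
    (p : 𝓞 L) ∈ P.asIdeal := by
  have h1 : (algebraMap (𝓞 F) (𝓞 L)) (p : 𝓞 F) ∈ P.asIdeal := h (Ideal.mem_map_of_mem _ hv)
  rwa [map_natCast] at h1

theorem grk (hGQ : S_GQ) : S_GRK := by
  classical
  intro p _ hp2 Lg hLg F L _ _ _ _ _ G hG H n R θ hθ hI
  have hp0 : p ≠ 0 := (Fact.out : p.Prime).ne_zero
  let ι := {P : HeightOneSpectrum (𝓞 L) // ∃ v ∈ G, Ab v P}
  have hfin : Finite ι := by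
    have : {P : HeightOneSpectrum (𝓞 L) | ∃ v ∈ G, Ab v P}.Finite :=
      (finite_above p hp0 L).subset fun P ⟨v, hv, hP⟩ => mem_above (hG v hv) hP
    exact this.to_subtype
  have : Fintype ι := Fintype.ofFinite ι
  have hval : ∀ (i : Fin n) (P : ι), ∃ r : ℤ_[p], lam Lg P.1 ((θ i : Lˣ) : L) = ((r : ℚ_[p]) : ℂ_[p]) := by
    intro i P
    obtain ⟨v, hv, hP⟩ := P.2
    exact (hGQ p hp2 Lg hLg L P.1 (mem_above (hG v hv) hP)).2 _ (Units.ne_zero _)
  choose u hu using hval
  let uQ : Fin n → ι → ℚ_[p] := fun i P => (u i P : ℚ_[p])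
  have hR : Module.finrank ℚ_[p] (Submodule.span ℚ_[p] (Set.range uQ)) < R := by
    by_contra hcon
    push Not at hcon
    apply hI
    obtain ⟨f, hf, -, hli⟩ := Submodule.exists_fun_fin_finrank_span_eq ℚ_[p] (Set.range uQ)
    choose k hk using hf
    refine ⟨fun i => θ (k (Fin.castLE hcon i)), fun i => hθ _, fun a ha => ?_⟩
    refine indep_ext (K := ℚ_[p]) (fun i => uQ (k (Fin.castLE hcon i))) ?_ a ?_
    · have h1 : (fun i => uQ (k (Fin.castLE hcon i))) = f ∘ Fin.castLE hcon := by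
        funext i
        exact hk _
      rw [h1]
      exact hli.comp _ (Fin.castLE_injective hcon)
    · rintro ⟨P, v, hv, hP⟩
      have h2 := ha v hv P hP
      rw [← h2]
      refine Finset.sum_congr rfl fun i _ => ?_
      rw [hu _ ⟨P, v, hv, hP⟩]
      rfl
  let f : (Fin n → ℚ_[p]) →ₗ[ℚ_[p]] (ι → ℚ_[p]) := Fintype.linearCombination ℚ_[p] uQ
  have hrange : LinearMap.range f = Submodule.span ℚ_[p] (Set.range uQ) :=
    Fintype.range_linearCombination _ _
  have hker : n + 1 - R ≤ Module.finrank ℚ_[p] (LinearMap.ker f) := by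
    have h1 := LinearMap.finrank_range_add_finrank_ker f
    rw [Module.finrank_fin_fun, hrange] at h1
    omega
  let b := Module.finBasis ℚ_[p] (LinearMap.ker f)
  let w : Fin (n + 1 - R) → (Fin n → ℚ_[p]) := fun j => (b (Fin.castLE hker j) : Fin n → ℚ_[p])
  have hw : LinearIndependent ℚ_[p] w := by
    have h1 := b.linearIndependent.map' (LinearMap.ker f).subtype (Submodule.ker_subtype _)
    exact h1.comp _ (Fin.castLE_injective hker)
  have hwk : ∀ j, f (w j) = 0 := fun j => (b (Fin.castLE hker j)).2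
  obtain ⟨d, hd⟩ := IsLocalization.exist_integer_multiples (nonZeroDivisors ℤ_[p])
    (Finset.univ : Finset (Fin (n + 1 - R) × Fin n)) (fun q => (w q.1 q.2 : ℚ_[p]))
  have hd' : ∀ j i, ∃ z : ℤ_[p], (z : ℚ_[p]) = (d : ℤ_[p]) * w j i := by
    intro j i
    obtain ⟨z, hz⟩ := hd (j, i) (Finset.mem_univ _)
    refine ⟨z, ?_⟩
    have : algebraMap ℤ_[p] ℚ_[p] z = (z : ℚ_[p]) := rfl
    rw [← this, hz]
    rfl
  choose a ha using hd'
  refine ⟨a, ?_, ?_⟩
  · rw [Fintype.linearIndependent_iff]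
    intro c hc
    rw [Fintype.linearIndependent_iff] at hw
    have hd0 : ((d : ℤ_[p]) : ℚ_[p]) ≠ 0 := by
      intro h
      exact nonZeroDivisors.ne_zero d.2 (PadicInt.ext h)
    have h1 := hw (fun j => ((c j : ℤ_[p]) : ℚ_[p]) * ((d : ℤ_[p]) : ℚ_[p])) ?_
    · intro j
      have h2 := h1 j
      have h3 : ((c j : ℤ_[p]) : ℚ_[p]) = 0 := by
        rcases mul_eq_zero.1 h2 with h | h
        · exact h
        · exact absurd h hd0
      exact PadicInt.ext h3
    · funext i
      have h4 := congrFun hc i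
      simp only [Finset.sum_apply, Pi.smul_apply, smul_eq_mul, Pi.zero_apply] at h4 ⊢
      have h5 : (((∑ j, c j * a j i : ℤ_[p])) : ℚ_[p]) = 0 := by rw [h4]; simp
      rw [← h5, PadicInt.coe_sum]
      refine Finset.sum_congr rfl fun j _ => ?_
      rw [PadicInt.coe_mul, ha]
      ring
  · intro j v hv P hP
    have h6 := congrFun (hwk j) ⟨P, v, hv, hP⟩
    simp only [f, Fintype.linearCombination_apply, Finset.sum_apply, Pi.smul_apply, smul_eq_mul,
      Pi.zero_apply] at h6
    have h7 : ∑ i, (((a j i : ℤ_[p]) : ℚ_[p]) : ℂ_[p]) * lam Lg P ((θ i : Lˣ) : L) =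
        ((((d : ℤ_[p]) : ℚ_[p]) * ∑ i, w j i * uQ i ⟨P, v, hv, hP⟩ : ℚ_[p]) : ℂ_[p]) := by
      rw [Finset.mul_sum]
      have hs : ∀ g : Fin n → ℚ_[p], ((∑ i, g i : ℚ_[p]) : ℂ_[p]) = ∑ i, ((g i : ℚ_[p]) : ℂ_[p]) := by
        intro g
        exact map_sum (algebraMap ℚ_[p] ℂ_[p]) g _
      rw [hs]
      refine Finset.sum_congr rfl fun i _ => ?_
      rw [hu i ⟨P, v, hv, hP⟩, ha]
      have hm : ∀ x y : ℚ_[p], ((x * y : ℚ_[p]) : ℂ_[p]) = (x : ℂ_[p]) * (y : ℂ_[p]) :=
        fun x y => map_mul (algebraMap ℚ_[p] ℂ_[p]) x y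
      rw [hm, hm, hm]
      ring
    rw [h7, h6, mul_zero]
    exact map_zero (algebraMap ℚ_[p] ℂ_[p])

end Pool.Agent.Q139.GK
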